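import Pool.Agent.H792.LF.Trans

/-!
# The curvature of the Hessian metrics of a Landsberg metric is transported
-/

set_option autoImplicit false

open scoped BigOperators ContDiff Topology Matrix
open Filter Set

namespace Pool.Agent.H792.LF

open Pool.Agent.R774.BW Pool.Agent.H792.Gen

variable {n : ℕ}

/-- matrix valued functions with jointly smooth entries -/
def JM (U : Set (Fin n → ℝ)) (f : (Fin n → ℝ) → (Fin n → ℝ) → Matrix (Fin n) (Fin n) ℝ) : Prop :=
  ∀ c d, JS U (fun x y => f x y c d)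

/-- the horizontal derivative of a matrix valued function -/
noncomputable def DM (N : Fin n → (Fin n → ℝ) → (Fin n → ℝ) → ℝ) (v : Fin n → ℝ)
    (f : (Fin n → ℝ) → (Fin n → ℝ) → Matrix (Fin n) (Fin n) ℝ) (x y : Fin n → ℝ) :
    Matrix (Fin n) (Fin n) ℝ :=
  Matrix.of fun c d => Dh N v (fun x y => f x y c d) x y

section

variable {U : Set (Fin n → ℝ)} {f g : (Fin n → ℝ) → (Fin n → ℝ) → Matrix (Fin n) (Fin n) ℝ}
  {N : Fin n → (Fin n → ℝ) → (Fin n → ℝ) → ℝ} {v x y : Fin n → ℝ}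

theorem JM.mul (hf : JM U f) (hg : JM U g) : JM U (fun x y => f x y * g x y) := by
  intro c d
  have e : (fun x y => (f x y * g x y) c d) = fun x y => ∑ p, f x y c p * g x y p d := by
    funext x y
    exact Matrix.mul_apply
  rw [e]
  exact JS.sum fun p _ => (hf c p).mul (hg p d)

theorem JM.sub (hf : JM U f) (hg : JM U g) : JM U (fun x y => f x y - g x y) :=
  fun c d => (hf c d).sub (hg c d)

theorem DM_mul (hf : JM U f) (hg : JM U g) (hx : x ∈ U) (hy : y ≠ 0) :
    DM N v (fun x y => f x y * g x y) x y = DM N v f x y * g x y + f x y * DM N v g x y := by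
  ext c d
  have e : (fun x y => (f x y * g x y) c d) = fun x y => ∑ p, f x y c p * g x y p d := by
    funext x y
    exact Matrix.mul_apply
  simp only [DM, Matrix.of_apply, Matrix.add_apply, Matrix.mul_apply]
  have e2 := Dh_sum (N := N) (v := v) (s := Finset.univ) (fun p _ => (hf c p).mul (hg p d)) hx hy
  rw [e2, ← Finset.sum_add_distrib]
  exact Finset.sum_congr rfl fun p _ => Dh_mul (hf c p) (hg p d) hx hy

theorem DM_sub (hf : JM U f) (hg : JM U g) (hx : x ∈ U) (hy : y ≠ 0) :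
    DM N v (fun x y => f x y - g x y) x y = DM N v f x y - DM N v g x y := by
  ext c d
  exact Dh_sub (hf c d) (hg c d) hx hy

end

section

variable {U : Set (Fin n → ℝ)} {F : (Fin n → ℝ) → (Fin n → ℝ) → ℝ}
  {G : (Fin n → ℝ) → (Fin n → ℝ) → (Fin n → ℝ)}

/-- the third derivatives of `F²` -/
noncomputable def T (F : (Fin n → ℝ) → (Fin n → ℝ) → ℝ) (a : Fin n) (x y : Fin n → ℝ) :
    Matrix (Fin n) (Fin n) ℝ := Matrix.of fun b c => pd a (pd b (pd c (q F x))) y

/-- the curvature tensor of the Hessian metric, as commutators -/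
noncomputable def S (F : (Fin n → ℝ) → (Fin n → ℝ) → ℝ) (a b : Fin n) (x y : Fin n → ℝ) :
    Matrix (Fin n) (Fin n) ℝ :=
  T F a x y * (A (q F x) y)⁻¹ * T F b x y - T F b x y * (A (q F x) y)⁻¹ * T F a x y

/-- first derivatives of the nonlinear connection -/
noncomputable def N1 (G : (Fin n → ℝ) → (Fin n → ℝ) → (Fin n → ℝ)) (v x y : Fin n → ℝ) :
    Matrix (Fin n) (Fin n) ℝ := Matrix.of fun i a => pd a (N G v i x) y

/-- second derivatives of the nonlinear connection -/
noncomputable def N2 (G : (Fin n → ℝ) → (Fin n → ℝ) → (Fin n → ℝ)) (v : Fin n → ℝ) (a : Fin n)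
    (x y : Fin n → ℝ) : Matrix (Fin n) (Fin n) ℝ := Matrix.of fun i b => pd a (pd b (N G v i x)) y

theorem T_JM (hF : IsFinsler U F) (a : Fin n) : JM U (T F a) := fun b c =>
  (((q_JS hF).pd hF.isOpen c).pd hF.isOpen b).pd hF.isOpen a

theorem A_JM (hF : IsFinsler U F) : JM U (fun x y => A (q F x) y) := fun b c =>
  ((q_JS hF).pd hF.isOpen c).pd hF.isOpen b

theorem P_JM (hF : IsFinsler U F) : JM U (fun x y => (A (q F x) y)⁻¹) := fun b c => P_JS hF b c

theorem S_JM (hF : IsFinsler U F) (a b : Fin n) : JM U (S F a b) :=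
  (((T_JM hF a).mul (P_JM hF)).mul (T_JM hF b)).sub (((T_JM hF b).mul (P_JM hF)).mul (T_JM hF a))

variable (hF : IsFinsler U F) (hG : IsSpray U F G) (hL : IsLandsberg U F G) (v : Fin n → ℝ)
  {x : Fin n → ℝ} (hx : x ∈ U) {y : Fin n → ℝ} (hy : y ≠ 0)

include hF hx hy

theorem PA : (A (q F x) y)⁻¹ * A (q F x) y = 1 :=
  Matrix.nonsing_inv_mul _ (isUnit_iff_ne_zero.2 (A_det_pos (q_mn hF hx) hy).ne')

theorem AP : A (q F x) y * (A (q F x) y)⁻¹ = 1 :=
  Matrix.mul_nonsing_inv _ (isUnit_iff_ne_zero.2 (A_det_pos (q_mn hF hx) hy).ne')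

theorem T_symm (a : Fin n) : (T F a x y)ᵀ = T F a x y := by
  ext b c
  exact pd_congr (fun z hz => pd_comm (q_mn hF hx).sm c b hz) a hy

include hG hL

theorem DM_A : DM (N G v) v (fun x y => A (q F x) y) x y =
    (N1 G v x y)ᵀ * A (q F x) y + A (q F x) y * N1 G v x y := by
  ext a b
  simp only [DM, Matrix.of_apply, Matrix.add_apply, Matrix.mul_apply, Matrix.transpose_apply, A, N1]
  exact Dq2 hF hG hL v hx hy a b

theorem DM_T (a : Fin n) : DM (N G v) v (T F a) x y =
    ∑ i, N1 G v x y i a • T F i x y + (N1 G v x y)ᵀ * T F a x y + T F a x y * N1 G v x y +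
      (2 : ℝ) • ((N2 G v a x y)ᵀ * A (q F x) y) := by
  ext b c
  simp only [DM, Matrix.of_apply, Matrix.add_apply, Matrix.mul_apply, Matrix.transpose_apply, A, N1,
    N2, Matrix.smul_apply, Matrix.sum_apply, T, smul_eq_mul]
  exact Dq3 hF hG hL v hx hy a b c

theorem N2_A (a : Fin n) : (N2 G v a x y)ᵀ * A (q F x) y = A (q F x) y * N2 G v a x y := by
  ext b c
  simp only [Matrix.of_apply, Matrix.mul_apply, Matrix.transpose_apply, A, N2]
  rw [beta_symm hF hG hL v hx hy a b c]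
  refine Finset.sum_congr rfl fun i _ => ?_
  rw [pd_comm (q_mn hF hx).sm b i hy]
  ring

theorem star_M (a b : Fin n) : T F a x y * N2 G v b x y - T F b x y * N2 G v a x y -
    (N2 G v b x y)ᵀ * T F a x y + (N2 G v a x y)ᵀ * T F b x y = 0 := by
  ext m l
  have h := star_N hF hG hL v hx hy a m b l
  have hs : ∀ c d e : Fin n, pd c (pd d (pd e (q F x))) y = pd c (pd e (pd d (q F x))) y :=
    fun c d e => pd_congr (fun z hz => pd_comm (q_mn hF hx).sm d e hz) c hy
  simp only [Matrix.of_apply, Matrix.add_apply, Matrix.sub_apply, Matrix.mul_apply,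
    Matrix.transpose_apply, T, N2, Matrix.zero_apply]
  rw [← h]
  congr 1
  · congr 1
    refine Finset.sum_congr rfl fun i _ => ?_
    rw [hs a i l]
    ring
  · refine Finset.sum_congr rfl fun i _ => ?_
    rw [hs b i l]
    ring

theorem DM_P : DM (N G v) v (fun x y => (A (q F x) y)⁻¹) x y =
    -((A (q F x) y)⁻¹ * (N1 G v x y)ᵀ) - N1 G v x y * (A (q F x) y)⁻¹ := by
  have h1 : DM (N G v) v (fun x y => (A (q F x) y)⁻¹ * A (q F x) y) x y = 0 := by
    ext c d
    simp only [DM, Matrix.of_apply, Matrix.zero_apply]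
    rw [Dh_congr (U := U) (g := fun _ _ => (1 : Matrix (Fin n) (Fin n) ℝ) c d) hF.isOpen
      (fun x' hx' y' hy' => by rw [PA hF hx' hy']) hx hy, Dh_const]
  rw [DM_mul (P_JM hF) (A_JM hF) hx hy, DM_A hF hG hL v hx hy] at h1
  have h2 := congrArg (fun M => M * (A (q F x) y)⁻¹) h1
  simp only [add_mul, zero_mul, mul_add] at h2
  rw [mul_assoc, AP hF hx hy, mul_one, mul_assoc ((A (q F x) y)⁻¹) ((N1 G v x y)ᵀ * A (q F x) y),
    mul_assoc ((N1 G v x y)ᵀ), AP hF hx hy, mul_one, ← mul_assoc ((A (q F x) y)⁻¹) (A (q F x) y),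
    PA hF hx hy, one_mul] at h2
  rw [sub_eq_add_neg, ← neg_add, eq_neg_iff_add_eq_zero]
  exact h2

/-- the curvature of the Hessian metric is transported by the nonlinear connection -/
theorem DM_S (a b : Fin n) : DM (N G v) v (S F a b) x y =
    ∑ i, N1 G v x y i a • S F i b x y + ∑ i, N1 G v x y i b • S F a i x y +
      (N1 G v x y)ᵀ * S F a b x y + S F a b x y * N1 G v x y := by
  have e : S F a b = fun x y => T F a x y * (A (q F x) y)⁻¹ * T F b x y -
    T F b x y * (A (q F x) y)⁻¹ * T F a x y := rfl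
  have key : ∀ a b : Fin n, DM (N G v) v (fun x y => T F a x y * (A (q F x) y)⁻¹ * T F b x y) x y =
      ∑ i, N1 G v x y i a • (T F i x y * (A (q F x) y)⁻¹ * T F b x y) +
      ∑ i, N1 G v x y i b • (T F a x y * (A (q F x) y)⁻¹ * T F i x y) +
      (N1 G v x y)ᵀ * (T F a x y * (A (q F x) y)⁻¹ * T F b x y) +
      (T F a x y * (A (q F x) y)⁻¹ * T F b x y) * N1 G v x y +
      (2 : ℝ) • ((N2 G v a x y)ᵀ * T F b x y + T F a x y * N2 G v b x y) := by
    intro a b
    rw [DM_mul (f := fun x y => T F a x y * (A (q F x) y)⁻¹) ((T_JM hF a).mul (P_JM hF))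
      (T_JM hF b) hx hy, DM_mul (T_JM hF a) (P_JM hF) hx hy, DM_T hF hG hL v hx hy,
      DM_T hF hG hL v hx hy, DM_P hF hG hL v hx hy, N2_A hF hG hL v hx hy b]
    have h1 : (N2 G v a x y)ᵀ * A (q F x) y * (A (q F x) y)⁻¹ = (N2 G v a x y)ᵀ := by
      rw [mul_assoc, AP hF hx hy, mul_one]
    have h2 : (A (q F x) y)⁻¹ * (A (q F x) y * N2 G v b x y) = N2 G v b x y := by
      rw [← mul_assoc, PA hF hx hy, one_mul]
    have h3 : (∑ i, N1 G v x y i a • T F i x y) * (A (q F x) y)⁻¹ * T F b x y =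
        ∑ i, N1 G v x y i a • (T F i x y * (A (q F x) y)⁻¹ * T F b x y) := by
      rw [Finset.sum_mul, Finset.sum_mul]
      exact Finset.sum_congr rfl fun i _ => by rw [smul_mul_assoc, smul_mul_assoc]
    have h4 : T F a x y * (A (q F x) y)⁻¹ * (∑ i, N1 G v x y i b • T F i x y) =
        ∑ i, N1 G v x y i b • (T F a x y * (A (q F x) y)⁻¹ * T F i x y) := by
      rw [Finset.mul_sum]
      exact Finset.sum_congr rfl fun i _ => by rw [mul_smul_comm]
    have h5 : (2 : ℝ) • ((N2 G v a x y)ᵀ * A (q F x) y) * (A (q F x) y)⁻¹ * T F b x y =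
        (2 : ℝ) • ((N2 G v a x y)ᵀ * T F b x y) := by
      rw [smul_mul_assoc, h1, smul_mul_assoc]
    have h6 : T F a x y * (A (q F x) y)⁻¹ * ((2 : ℝ) • (A (q F x) y * N2 G v b x y)) =
        (2 : ℝ) • (T F a x y * N2 G v b x y) := by
      rw [mul_smul_comm, mul_assoc, h2]
    simp only [add_mul, mul_add, h3, h4, h5, h6, smul_add]
    noncomm_ring
  rw [e, DM_sub (((T_JM hF a).mul (P_JM hF)).mul (T_JM hF b))
    (((T_JM hF b).mul (P_JM hF)).mul (T_JM hF a)) hx hy, key a b, key b a]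
  have hst := star_M hF hG hL v hx hy a b
  have hst2 : (2 : ℝ) • ((N2 G v a x y)ᵀ * T F b x y + T F a x y * N2 G v b x y) =
      (2 : ℝ) • ((N2 G v b x y)ᵀ * T F a x y + T F b x y * N2 G v a x y) := by
    congr 1
    rw [← sub_eq_zero, ← hst]
    abel
  rw [hst2]
  simp only [S, smul_sub, Finset.sum_sub_distrib, mul_sub, sub_mul]
  abel

end

end Pool.Agent.H792.LF
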