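import Mathlib

/-!
# A Gronwall inequality for the maximum of a family of functions, and quadratic bounds
-/

set_option autoImplicit false

open scoped BigOperators Topology
open Filter Set

namespace Pool.Agent.H792.LF

/-- If the derivative in `s` at the points where `w(s,·)` is maximal is at most `C w`, then a family
which starts non-positive stays non-positive. -/
theorem sup_gronwall_end {E : Type*} [TopologicalSpace E] {K : Set E} (hK : IsCompact K)
    {w : ℝ → E → ℝ} {T C : ℝ} (hT : 0 ≤ T)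
    (hw : ContinuousOn (fun p : ℝ × E => w p.1 p.2) (Icc 0 T ×ˢ K))
    (hd : ∀ s ∈ Ioc 0 T, ∀ y ∈ K, (∀ z ∈ K, w s z ≤ w s y) →
      ∃ d, HasDerivAt (fun t => w t y) d s ∧ d ≤ C * w s y)
    (h0 : ∀ y ∈ K, w 0 y ≤ 0) : ∀ y ∈ K, w T y ≤ 0 := by
  rcases K.eq_empty_or_nonempty with rfl | hne
  · intro y hy; exact absurd hy (notMem_empty y)
  have : CompactSpace K := isCompact_iff_compactSpace.1 hK
  have : Nonempty K := hne.to_subtype
  set cl : ℝ → ℝ := fun s => max 0 (min s T) with hcl
  have hcl_mem : ∀ s, cl s ∈ Icc 0 T := fun s => ⟨le_max_left _ _, max_le hT (min_le_right _ _)⟩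
  have hcl_eq : ∀ s ∈ Icc 0 T, cl s = s := by
    intro s hs
    simp only [hcl]
    rw [min_eq_left hs.2, max_eq_right hs.1]
  have hclc : Continuous cl := by fun_prop
  set W : ℝ → K → ℝ := fun s y => w (cl s) y.1 with hW
  have hWc : Continuous ↿W := by
    have h1 : Continuous (fun p : ℝ × K => ((cl p.1, p.2.1) : ℝ × E)) := by fun_prop
    exact hw.comp_continuous h1 fun p => ⟨hcl_mem p.1, p.2.2⟩
  set m : ℝ → ℝ := fun s => sSup (W s '' univ) with hm
  have hmc : Continuous m := isCompact_univ.continuous_sSup hWc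
  have hWs : ∀ s, Continuous (W s) := fun s => hWc.comp (by fun_prop : Continuous fun y : K => (s, y))
  have hbdd : ∀ s, BddAbove (W s '' univ) := fun s =>
    (isCompact_univ.image (hWs s)).bddAbove
  have hle : ∀ s (y : K), W s y ≤ m s := fun s y => le_csSup (hbdd s) ⟨y, mem_univ _, rfl⟩
  have hatt : ∀ s, ∃ y : K, W s y = m s := by
    intro s
    obtain ⟨y, -, hy⟩ := (isCompact_univ.image (hWs s)).sSup_mem (univ_nonempty.image _)
    exact ⟨y, hy⟩
  set f : ℝ → ℝ := fun t => - m (T - t) with hf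
  have hfc : ContinuousOn f (Icc 0 T) := by
    have : Continuous f := (hmc.comp (by fun_prop : Continuous fun t : ℝ => T - t)).neg
    exact this.continuousOn
  have key := le_gronwallBound_of_liminf_deriv_right_le (f := f) (f' := fun t => C * m (T - t))
    (δ := f 0) (K := -C) (ε := 0) (a := 0) (b := T) hfc ?_ le_rfl ?_ T ⟨hT, le_rfl⟩
  · rw [gronwallBound_ε0] at key
    simp only [hf, sub_zero, sub_self] at key
    have hm0 : m 0 ≤ 0 := by
      obtain ⟨y, hy⟩ := hatt 0
      rw [← hy]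
      simp only [hW, hcl_eq 0 ⟨le_rfl, hT⟩]
      exact h0 _ y.2
    have hpos := Real.exp_pos (-C * T)
    have hmT : m T ≤ 0 := by
      by_contra hcon
      push Not at hcon
      have : 0 < m T * Real.exp (-C * T) := mul_pos hcon hpos
      nlinarith
    intro y hy
    have := hle T ⟨y, hy⟩
    simp only [hW, hcl_eq T ⟨hT, le_rfl⟩] at this
    exact this.trans hmT
  · intro t ht r hr
    set s := T - t with hs
    have hsm : s ∈ Ioc 0 T := ⟨by simp only [hs]; linarith [ht.2], by simp only [hs]; linarith [ht.1]⟩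
    have hsI : s ∈ Icc 0 T := ⟨hsm.1.le, hsm.2⟩
    obtain ⟨y, hy⟩ := hatt s
    have hmax : ∀ z ∈ K, w s z ≤ w s y := by
      intro z hz
      have h1 := hle s ⟨z, hz⟩
      rw [← hy] at h1
      simpa only [hW, hcl_eq s hsI] using h1
    obtain ⟨d, hd1, hd2⟩ := hd s hsm y y.2 hmax
    have hms : m s = w s y := by
      rw [← hy]
      simp only [hW, hcl_eq s hsI]
    have hdr : d < r := lt_of_le_of_lt (hd2.trans_eq (by rw [hms])) hr
    -- the slopes converge
    have hslope : Tendsto (fun z => (z - t)⁻¹ * (w s y - w (T - z) y)) (𝓝[>] t) (𝓝 d) := by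
      have h1 : HasDerivAt (fun z => w (T - z) y) (-d) t := by
        have h2 : HasDerivAt (fun z : ℝ => T - z) (-1) t := by
          simpa using (hasDerivAt_id t).const_sub T
        have h3 := HasDerivAt.comp t (show HasDerivAt (fun u => w u (y : E)) d (T - t) from hd1) h2
        simpa [Function.comp_def] using h3
      have h2 := (h1.hasDerivWithinAt (s := Ioi t))
      rw [hasDerivWithinAt_iff_tendsto_slope' (by simp)] at h2
      have h3 := h2.neg
      rw [neg_neg] at h3
      refine h3.congr' ?_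
      filter_upwards [self_mem_nhdsWithin] with z hz
      simp only [slope, vsub_eq_sub, smul_eq_mul, hs]
      ring
    have hev : ∀ᶠ z in 𝓝[>] t, (z - t)⁻¹ * (w s y - w (T - z) y) < r :=
      (tendsto_order.1 hslope).2 r hdr
    have hev2 : ∀ᶠ z in 𝓝[>] t, z < T := by
      have : Iio T ∈ 𝓝 t := Iio_mem_nhds ht.2
      exact nhdsWithin_le_nhds this
    refine Eventually.frequently ?_
    filter_upwards [hev, hev2, self_mem_nhdsWithin] with z hz1 hz2 hz3
    have hz3' : t < z := hz3
    have hzI : T - z ∈ Icc 0 T := ⟨by linarith, by linarith [ht.1]⟩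
    have h1 : w (T - z) y ≤ m (T - z) := by
      have := hle (T - z) y
      simpa only [hW, hcl_eq _ hzI] using this
    have h2 : f z - f t ≤ w s y - w (T - z) y := by
      simp only [hf]
      rw [← hs, hms]
      linarith
    have h3 : 0 ≤ (z - t)⁻¹ := inv_nonneg.2 (by linarith)
    calc (z - t)⁻¹ * (f z - f t) ≤ (z - t)⁻¹ * (w s y - w (T - z) y) :=
          mul_le_mul_of_nonneg_left h2 h3
      _ < r := hz1
  · intro t ht
    simp only [hf]
    linarith

/-- a bound for a quadratic form -/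
theorem quad_bound {n : ℕ} {M : Fin n → Fin n → ℝ} {μ : ℝ} (hM : ∀ i a, |M i a| ≤ μ)
    (s : Fin n → ℝ) : ∑ a, s a * ∑ i, M i a * s i ≤ μ * n * ∑ a, s a ^ 2 := by
  have h1 : ∀ a i, s a * (M i a * s i) ≤ μ / 2 * (s a ^ 2 + s i ^ 2) := by
    intro a i
    have h2 : s a * (M i a * s i) ≤ |M i a| * (|s a| * |s i|) := by
      calc s a * (M i a * s i) ≤ |s a * (M i a * s i)| := le_abs_self _
        _ = |M i a| * (|s a| * |s i|) := by rw [abs_mul, abs_mul]; ring
    have h3 : |s a| * |s i| ≤ (s a ^ 2 + s i ^ 2) / 2 := by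
      have := two_mul_le_add_sq |s a| |s i|
      rw [sq_abs, sq_abs] at this
      linarith
    have h4 : 0 ≤ μ := (abs_nonneg _).trans (hM i a)
    calc s a * (M i a * s i) ≤ |M i a| * (|s a| * |s i|) := h2
      _ ≤ μ * ((s a ^ 2 + s i ^ 2) / 2) :=
        mul_le_mul (hM i a) h3 (by positivity) h4
      _ = μ / 2 * (s a ^ 2 + s i ^ 2) := by ring
  calc ∑ a, s a * ∑ i, M i a * s i = ∑ a, ∑ i, s a * (M i a * s i) := by
        exact Finset.sum_congr rfl fun a _ => by rw [Finset.mul_sum]
    _ ≤ ∑ a, ∑ i, μ / 2 * (s a ^ 2 + s i ^ 2) :=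
        Finset.sum_le_sum fun a _ => Finset.sum_le_sum fun i _ => h1 a i
    _ = μ * n * ∑ a, s a ^ 2 := by
        simp only [← Finset.mul_sum, Finset.sum_add_distrib, Finset.sum_const, Finset.card_univ,
          Fintype.card_fin, nsmul_eq_mul]
        ring

/-- the bound for the derivative of the sum of the squares of the components of a tensor -/
theorem tensor_bound {n : ℕ} {M : Fin n → Fin n → ℝ} {μ : ℝ} (hM : ∀ i a, |M i a| ≤ μ)
    (s : Fin n → Fin n → Fin n → Fin n → ℝ) :
    ∑ a, ∑ b, ∑ c, ∑ d, s a b c d * (∑ i, M i a * s i b c d + ∑ i, M i b * s a i c d +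
      ∑ i, M i c * s a b i d + ∑ i, M i d * s a b c i) ≤
      4 * μ * n * ∑ a, ∑ b, ∑ c, ∑ d, s a b c d ^ 2 := by
  have e1 : ∀ f : Fin n → Fin n → Fin n → Fin n → ℝ, ∑ a, ∑ b, ∑ c, ∑ d, f a b c d =
      ∑ b, ∑ c, ∑ d, ∑ a, f a b c d := by
    intro f
    rw [Finset.sum_comm]
    refine Finset.sum_congr rfl fun b _ => ?_
    rw [Finset.sum_comm]
    refine Finset.sum_congr rfl fun c _ => ?_
    rw [Finset.sum_comm]
  have e2 : ∀ f : Fin n → Fin n → Fin n → ℝ, ∑ b, ∑ c, ∑ d, f b c d =
      ∑ c, ∑ d, ∑ b, f b c d := by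
    intro f
    rw [Finset.sum_comm]
    refine Finset.sum_congr rfl fun b _ => ?_
    rw [Finset.sum_comm]
  have b1 : ∑ a, ∑ b, ∑ c, ∑ d, s a b c d * ∑ i, M i a * s i b c d ≤
      μ * n * ∑ a, ∑ b, ∑ c, ∑ d, s a b c d ^ 2 := by
    rw [e1 fun a b c d => s a b c d * ∑ i, M i a * s i b c d, e1 fun a b c d => s a b c d ^ 2]
    simp only [Finset.mul_sum (a := μ * n)]
    refine Finset.sum_le_sum fun b _ => Finset.sum_le_sum fun c _ => Finset.sum_le_sum fun d _ => ?_
    rw [← Finset.mul_sum]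
    exact quad_bound hM fun a => s a b c d
  have b2 : ∑ a, ∑ b, ∑ c, ∑ d, s a b c d * ∑ i, M i b * s a i c d ≤
      μ * n * ∑ a, ∑ b, ∑ c, ∑ d, s a b c d ^ 2 := by
    rw [Finset.mul_sum]
    refine Finset.sum_le_sum fun a _ => ?_
    rw [e2 fun b c d => s a b c d * ∑ i, M i b * s a i c d, e2 fun b c d => s a b c d ^ 2]
    simp only [Finset.mul_sum (a := μ * n)]
    refine Finset.sum_le_sum fun c _ => Finset.sum_le_sum fun d _ => ?_
    rw [← Finset.mul_sum]
    exact quad_bound hM fun b => s a b c d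
  have b3 : ∑ a, ∑ b, ∑ c, ∑ d, s a b c d * ∑ i, M i c * s a b i d ≤
      μ * n * ∑ a, ∑ b, ∑ c, ∑ d, s a b c d ^ 2 := by
    simp only [Finset.mul_sum (a := μ * n)]
    refine Finset.sum_le_sum fun a _ => Finset.sum_le_sum fun b _ => ?_
    rw [Finset.sum_comm, Finset.sum_comm (f := fun c d => μ * n * s a b c d ^ 2)]
    refine Finset.sum_le_sum fun d _ => ?_
    rw [← Finset.mul_sum]
    exact quad_bound hM fun c => s a b c d
  have b4 : ∑ a, ∑ b, ∑ c, ∑ d, s a b c d * ∑ i, M i d * s a b c i ≤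
      μ * n * ∑ a, ∑ b, ∑ c, ∑ d, s a b c d ^ 2 := by
    simp only [Finset.mul_sum (a := μ * n)]
    refine Finset.sum_le_sum fun a _ => Finset.sum_le_sum fun b _ =>
      Finset.sum_le_sum fun c _ => ?_
    rw [← Finset.mul_sum]
    exact quad_bound hM fun d => s a b c d
  have e : ∀ a b c d, s a b c d * (∑ i, M i a * s i b c d + ∑ i, M i b * s a i c d +
      ∑ i, M i c * s a b i d + ∑ i, M i d * s a b c i) =
      s a b c d * ∑ i, M i a * s i b c d + s a b c d * ∑ i, M i b * s a i c d +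
      s a b c d * ∑ i, M i c * s a b i d + s a b c d * ∑ i, M i d * s a b c i := by
    intro a b c d
    ring
  simp only [e, Finset.sum_add_distrib]
  linarith

end Pool.Agent.H792.LF
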