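import Pool.Agent.H792.LF.Curv
import Pool.Agent.H792.LF.Gron

/-!
# Flatness of the tangent spaces propagates
-/

set_option autoImplicit false

open scoped BigOperators ContDiff Topology Matrix
open Filter Set

namespace Pool.Agent.H792.LF

open Pool.Agent.R774.BW Pool.Agent.H792.Gen

variable {n : ℕ} {U : Set (Fin n → ℝ)} {F : (Fin n → ℝ) → (Fin n → ℝ) → ℝ}
  {G : (Fin n → ℝ) → (Fin n → ℝ) → (Fin n → ℝ)}

/-- the Hessian metric of the tangent norm at `x` is flat -/
def Flat (F : (Fin n → ℝ) → (Fin n → ℝ) → ℝ) (x : Fin n → ℝ) : Prop :=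
  ∀ y, y ≠ 0 → ∀ a b, S F a b x y = 0

/-- the norm of the curvature -/
noncomputable def W (F : (Fin n → ℝ) → (Fin n → ℝ) → ℝ) (x y : Fin n → ℝ) : ℝ :=
  q F x y * q F x y * ∑ a, ∑ b, ∑ c, ∑ d, S F a b x y c d * S F a b x y c d

theorem W_JS (hF : IsFinsler U F) : JS U (W F) :=
  ((q_JS hF).mul (q_JS hF)).mul (JS.sum fun a _ => JS.sum fun b _ => JS.sum fun c _ =>
    JS.sum fun d _ => (S_JM hF a b c d).mul (S_JM hF a b c d))

theorem S_hom (hF : IsFinsler U F) {x : Fin n → ℝ} (hx : x ∈ U) {y : Fin n → ℝ} (hy : y ≠ 0)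
    {t : ℝ} (ht : 0 < t) (a b : Fin n) : S F a b x (t • y) = (t⁻¹ * t⁻¹) • S F a b x y := by
  have hQ := q_mn hF hx
  have h1 : ∀ a, T F a x (t • y) = t⁻¹ • T F a x y := by
    intro a
    ext b c
    have := hom_pd3 hQ a b c y hy t ht
    rw [zpow_neg_one] at this
    exact this
  have h2 : A (q F x) (t • y) = A (q F x) y := by
    ext b c
    have := hom_pd2 hQ b c y hy t ht
    simpa [A] using this
  unfold S
  rw [h1, h1, h2]
  simp only [smul_mul_assoc, mul_smul_comm, smul_sub, smul_smul]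

theorem W_hom (hF : IsFinsler U F) {x : Fin n → ℝ} (hx : x ∈ U) {y : Fin n → ℝ} (hy : y ≠ 0)
    {t : ℝ} (ht : 0 < t) : W F x (t • y) = W F x y := by
  have h1 : q F x (t • y) = t ^ 2 * q F x y := by
    unfold q
    rw [hF.hom x hx y t ht]; ring
  unfold W
  simp only [S_hom hF hx hy ht, Matrix.smul_apply, smul_eq_mul]
  have h2 : ∀ a b c d, (t⁻¹ * t⁻¹ * S F a b x y c d) * (t⁻¹ * t⁻¹ * S F a b x y c d) =
      (t⁻¹ * t⁻¹ * (t⁻¹ * t⁻¹)) * (S F a b x y c d * S F a b x y c d) := fun a b c d => by ring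
  simp only [h2, ← Finset.mul_sum]
  rw [h1]
  have ht' := ht.ne'
  field_simp

theorem W_nonneg (x y : Fin n → ℝ) : 0 ≤ W F x y := by
  unfold W
  refine mul_nonneg (mul_self_nonneg _) ?_
  exact Finset.sum_nonneg fun a _ => Finset.sum_nonneg fun b _ => Finset.sum_nonneg fun c _ =>
    Finset.sum_nonneg fun d _ => mul_self_nonneg _

theorem S_zero_of_W (hF : IsFinsler U F) {x : Fin n → ℝ} (hx : x ∈ U) {y : Fin n → ℝ} (hy : y ≠ 0)
    (h : W F x y ≤ 0) (a b : Fin n) : S F a b x y = 0 := by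
  have h0 : W F x y = 0 := le_antisymm h (W_nonneg x y)
  have hq : 0 < q F x y := (q_mn hF hx).pos y hy
  unfold W at h0
  have h1 := (mul_eq_zero.1 h0).resolve_left (mul_pos hq hq).ne'
  have h2 := (Finset.sum_eq_zero_iff_of_nonneg (fun a _ => Finset.sum_nonneg fun b _ =>
    Finset.sum_nonneg fun c _ => Finset.sum_nonneg fun d _ => mul_self_nonneg _)).1 h1 a
    (Finset.mem_univ a)
  have h3 := (Finset.sum_eq_zero_iff_of_nonneg (fun b _ =>
    Finset.sum_nonneg fun c _ => Finset.sum_nonneg fun d _ => mul_self_nonneg _)).1 h2 b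
    (Finset.mem_univ b)
  ext c d
  have h4 := (Finset.sum_eq_zero_iff_of_nonneg (fun c _ =>
    Finset.sum_nonneg fun d _ => mul_self_nonneg _)).1 h3 c (Finset.mem_univ c)
  have h5 := (Finset.sum_eq_zero_iff_of_nonneg (fun d _ => mul_self_nonneg _)).1 h4 d
    (Finset.mem_univ d)
  exact mul_self_eq_zero.1 h5

/-- at a maximum on the unit sphere all vertical derivatives of `W` vanish -/
theorem W_crit (hF : IsFinsler U F) {x : Fin n → ℝ} (hx : x ∈ U) {y : Fin n → ℝ} (hy : ‖y‖ = 1)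
    (hmax : ∀ z, ‖z‖ = 1 → W F x z ≤ W F x y) (i : Fin n) : pd i (W F x) y = 0 := by
  have hy0 : y ≠ 0 := by
    intro h; rw [h, norm_zero] at hy; exact zero_ne_one hy
  have hloc : IsLocalMax (W F x) y := by
    filter_upwards [isOpen_ne0.mem_nhds hy0] with z hz
    have hn : 0 < ‖z‖ := norm_pos_iff.2 hz
    have h1 := W_hom hF hx hz (t := ‖z‖⁻¹) (inv_pos.2 hn)
    rw [← h1]
    apply hmax
    rw [norm_smul, norm_inv, norm_norm, inv_mul_cancel₀ hn.ne']
  unfold pd
  rw [hloc.fderiv_eq_zero]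
  rfl

/-- the horizontal derivative of `W` -/
theorem Dh_W (hF : IsFinsler U F) (hG : IsSpray U F G) (hL : IsLandsberg U F G) (v : Fin n → ℝ)
    {x : Fin n → ℝ} (hx : x ∈ U) {y : Fin n → ℝ} (hy : y ≠ 0) {μ : ℝ}
    (hμ : ∀ i a, |pd a (N G v i x) y| ≤ μ) :
    Dh (N G v) v (W F) x y ≤ 8 * μ * n * W F x y := by
  have hq := q_JS hF
  have hs : ∀ a b c d, JS U (fun x y => S F a b x y c d) := fun a b c d => S_JM hF a b c d
  have h1 : Dh (N G v) v (W F) x y = q F x y * q F x y *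
      ∑ a, ∑ b, ∑ c, ∑ d, 2 * (S F a b x y c d *
        (∑ i, pd a (N G v i x) y * S F i b x y c d + ∑ i, pd b (N G v i x) y * S F a i x y c d +
        ∑ i, pd c (N G v i x) y * S F a b x y i d + ∑ i, pd d (N G v i x) y * S F a b x y c i)) := by
    have e0 : Dh (N G v) v (fun x y => q F x y * q F x y) x y = 0 := by
      rw [Dh_mul hq hq hx hy, Dq hF hG v hx hy]; ring
    have e1 : Dh (N G v) v (W F) x y = Dh (N G v) v (fun x y => q F x y * q F x y) x y *
        (∑ a, ∑ b, ∑ c, ∑ d, S F a b x y c d * S F a b x y c d) + q F x y * q F x y *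
        Dh (N G v) v (fun x y => ∑ a, ∑ b, ∑ c, ∑ d, S F a b x y c d * S F a b x y c d) x y :=
      Dh_mul (hq.mul hq) (JS.sum fun a _ => JS.sum fun b _ => JS.sum fun c _ =>
        JS.sum fun d _ => (hs a b c d).mul (hs a b c d)) hx hy
    rw [e1, e0, zero_mul, zero_add]
    congr 1
    rw [Dh_sum (fun a _ => JS.sum fun b _ => JS.sum fun c _ =>
      JS.sum fun d _ => (hs a b c d).mul (hs a b c d)) hx hy]
    refine Finset.sum_congr rfl fun a _ => ?_
    rw [Dh_sum (fun b _ => JS.sum fun c _ =>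
      JS.sum fun d _ => (hs a b c d).mul (hs a b c d)) hx hy]
    refine Finset.sum_congr rfl fun b _ => ?_
    rw [Dh_sum (fun c _ => JS.sum fun d _ => (hs a b c d).mul (hs a b c d)) hx hy]
    refine Finset.sum_congr rfl fun c _ => ?_
    rw [Dh_sum (fun d _ => (hs a b c d).mul (hs a b c d)) hx hy]
    refine Finset.sum_congr rfl fun d _ => ?_
    rw [Dh_mul (hs a b c d) (hs a b c d) hx hy]
    have e2 := congrFun (congrFun (DM_S hF hG hL v hx hy a b) c) d
    simp only [DM, Matrix.of_apply, Matrix.add_apply, Matrix.sum_apply, Matrix.smul_apply,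
      smul_eq_mul, Matrix.mul_apply, Matrix.transpose_apply, N1] at e2
    rw [e2]
    have e3 : ∑ i, S F a b x y c i * pd d (N G v i x) y =
        ∑ i, pd d (N G v i x) y * S F a b x y c i :=
      Finset.sum_congr rfl fun i _ => mul_comm _ _
    rw [e3]
    ring
  rw [h1]
  have h2 := tensor_bound (M := fun i a => pd a (N G v i x) y) hμ (fun a b c d => S F a b x y c d)
  simp only [← Finset.mul_sum]
  have h3 : (∑ a, ∑ b, ∑ c, ∑ d, S F a b x y c d ^ 2) =
      ∑ a, ∑ b, ∑ c, ∑ d, S F a b x y c d * S F a b x y c d := by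
    simp only [sq]
  rw [h3] at h2
  have h4 : 0 ≤ q F x y * q F x y := mul_self_nonneg _
  unfold W
  calc _ ≤ q F x y * q F x y * (2 * (4 * μ * n *
        ∑ a, ∑ b, ∑ c, ∑ d, S F a b x y c d * S F a b x y c d)) := by
        refine mul_le_mul_of_nonneg_left ?_ h4
        refine mul_le_mul_of_nonneg_left h2 (by norm_num)
    _ = _ := by ring

/-- flatness propagates along segments -/
theorem flat_segment (hF : IsFinsler U F) (hG : IsSpray U F G) (hL : IsLandsberg U F G)
    {x₀ v : Fin n → ℝ} (hseg : ∀ s ∈ Icc (0 : ℝ) 1, x₀ + s • v ∈ U) (h0 : Flat F x₀) :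
    Flat F (x₀ + v) := by
  set K : Set (Fin n → ℝ) := {y | ‖y‖ = 1} with hKdef
  have hK : IsCompact K := by
    have : K = Metric.sphere (0 : Fin n → ℝ) 1 := by
      ext y; simp [hKdef]
    rw [this]
    exact isCompact_sphere _ _
  have hK0 : ∀ y ∈ K, y ≠ 0 := by
    intro y hy h
    simp only [hKdef, mem_ofPred_eq, h, norm_zero] at hy
    exact zero_ne_one hy
  -- the bound for the derivatives of the connection
  obtain ⟨μ, hμ⟩ : ∃ μ : ℝ, ∀ s ∈ Icc (0 : ℝ) 1, ∀ y ∈ K, ∀ i a,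
      |pd a (N G v i (x₀ + s • v)) y| ≤ μ := by
    have hc : ContinuousOn (fun p : ℝ × (Fin n → ℝ) => fun (i a : Fin n) =>
        pd a (N G v i (x₀ + p.1 • v)) p.2) (Icc (0 : ℝ) 1 ×ˢ K) := by
      rw [continuousOn_pi]
      intro i
      rw [continuousOn_pi]
      intro a p hp
      have h1 : ContinuousAt (fun r : (Fin n → ℝ) × (Fin n → ℝ) => pd a (N G v i r.1) r.2)
          (x₀ + p.1 • v, p.2) :=
        ((N_JS hF hG v i).pd hF.isOpen a _ (hseg p.1 hp.1) _ (hK0 _ hp.2)).continuousAt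
      have h2 : ContinuousAt (fun p : ℝ × (Fin n → ℝ) => (x₀ + p.1 • v, p.2)) p := by fun_prop
      exact (ContinuousAt.comp (f := fun p : ℝ × (Fin n → ℝ) => (x₀ + p.1 • v, p.2)) h1
        h2).continuousWithinAt
    obtain ⟨μ, hμ⟩ := (isCompact_Icc.prod hK).exists_bound_of_continuousOn hc
    refine ⟨μ, fun s hs y hy i a => ?_⟩
    have h1 := hμ (s, y) ⟨hs, hy⟩
    have h2 := (norm_le_pi_norm (fun (i a : Fin n) => pd a (N G v i (x₀ + s • v)) y) i).trans h1
    have h3 := (norm_le_pi_norm (fun (a : Fin n) => pd a (N G v i (x₀ + s • v)) y) a).trans h2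
    simpa using h3
  have key := sup_gronwall_end hK (w := fun s y => W F (x₀ + s • v) y) (T := 1) (C := 8 * μ * n)
    zero_le_one ?_ ?_ ?_
  · intro y hy a b
    have hn : 0 < ‖y‖ := norm_pos_iff.2 hy
    have hx1 : x₀ + v ∈ U := by simpa using hseg 1 ⟨zero_le_one, le_rfl⟩
    have h1 : W F (x₀ + v) y ≤ 0 := by
      rw [← W_hom hF hx1 hy (t := ‖y‖⁻¹) (inv_pos.2 hn)]
      have := key (‖y‖⁻¹ • y) (by
        simp only [hKdef, mem_ofPred_eq]
        rw [norm_smul, norm_inv, norm_norm, inv_mul_cancel₀ hn.ne'])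
      simpa using this
    exact S_zero_of_W hF hx1 hy h1 a b
  · intro p hp
    have h1 : ContinuousAt (fun r : (Fin n → ℝ) × (Fin n → ℝ) => W F r.1 r.2)
        (x₀ + p.1 • v, p.2) := (W_JS hF _ (hseg p.1 hp.1) _ (hK0 _ hp.2)).continuousAt
    have h2 : ContinuousAt (fun p : ℝ × (Fin n → ℝ) => (x₀ + p.1 • v, p.2)) p := by fun_prop
    exact (ContinuousAt.comp (f := fun p : ℝ × (Fin n → ℝ) => (x₀ + p.1 • v, p.2)) h1
      h2).continuousWithinAt
  · intro s hs y hy hmax
    have hsI : s ∈ Icc (0 : ℝ) 1 := ⟨hs.1.le, hs.2⟩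
    have hx := hseg s hsI
    have hy0 := hK0 y hy
    refine ⟨dx v (W F) (x₀ + s • v) y, ?_, ?_⟩
    · have h1 : HasFDerivAt (fun z => W F z y) (fderiv ℝ (fun z => W F z y) (x₀ + s • v))
          (x₀ + s • v) := (((W_JS hF).smx hx hy0).differentiableAt (by simp)).hasFDerivAt
      have h2 : HasDerivAt (fun t : ℝ => x₀ + t • v) v s := by
        simpa using ((hasDerivAt_id s).smul_const v).const_add x₀
      exact HasFDerivAt.comp_hasDerivAt (f := fun t : ℝ => x₀ + t • v) s h1 h2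
    · have h1 := Dh_W hF hG hL v hx hy0 (hμ s hsI y hy)
      have h2 : Dh (N G v) v (W F) (x₀ + s • v) y = dx v (W F) (x₀ + s • v) y := by
        unfold Dh
        have h3 : ∀ i, pd i (W F (x₀ + s • v)) y = 0 := fun i =>
          W_crit hF hx hy (fun z hz => hmax z hz) i
        simp [h3]
      rw [h2] at h1
      exact h1
  · intro y hy
    have : W F (x₀ + (0 : ℝ) • v) y = 0 := by
      unfold W
      rw [zero_smul, add_zero]
      simp [h0 y (hK0 y hy)]
    exact this.le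

/-- flatness propagates over connected sets -/
theorem flat_connected (hF : IsFinsler U F) (hG : IsSpray U F G) (hL : IsLandsberg U F G)
    (hU : IsPreconnected U) {p : Fin n → ℝ} (hp : p ∈ U) (h0 : Flat F p) :
    ∀ x ∈ U, Flat F x := by
  have hball : ∀ x ∈ U, ∃ r > 0, Metric.ball x r ⊆ U := fun x hx =>
    Metric.isOpen_iff.1 hF.isOpen x hx
  have hstep : ∀ c r, Metric.ball c r ⊆ U → ∀ x ∈ Metric.ball c r, ∀ z ∈ Metric.ball c r,
      Flat F x → Flat F z := by
    intro c r hcr x hx z hz hfx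
    have h1 : ∀ s ∈ Icc (0 : ℝ) 1, x + s • (z - x) ∈ U := by
      intro s hs
      apply hcr
      have := (convex_ball c r) hx hz (a := 1 - s) (b := s) (by linarith [hs.2]) hs.1 (by ring)
      convert this using 1
      module
    have h2 := flat_segment hF hG hL h1 hfx
    rwa [add_sub_cancel] at h2
  set Z : Set (Fin n → ℝ) := {x | x ∈ U ∧ Flat F x} with hZ
  have hZo : IsOpen Z := by
    rw [Metric.isOpen_iff]
    rintro x ⟨hx, hfx⟩
    obtain ⟨r, hr, hball'⟩ := hball x hx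
    exact ⟨r, hr, fun z hz => ⟨hball' hz, hstep x r hball' x (Metric.mem_ball_self hr) z hz hfx⟩⟩
  have hsub : U ⊆ Z := by
    refine hU.subset_of_closure_inter_subset hZo ⟨p, hp, hp, h0⟩ ?_
    rintro x ⟨hxc, hx⟩
    obtain ⟨r, hr, hball'⟩ := hball x hx
    obtain ⟨z, hz, hzb⟩ := Metric.mem_closure_iff.1 hxc r hr
    have hzb' : z ∈ Metric.ball x r := by rw [Metric.mem_ball, dist_comm]; exact hzb
    exact ⟨hx, hstep x r hball' z hzb' x (Metric.mem_ball_self hr) hz.2⟩
  exact fun x hx => (hsub hx).2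

end Pool.Agent.H792.LF
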