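import Pool.Agent.H792.Gen.Star

/-!
# Functions which are smooth in the point and in the tangent vector
-/

set_option autoImplicit false

open scoped BigOperators ContDiff Topology
open Filter Set

namespace Pool.Agent.H792.LF

open Pool.Agent.R774.BW Pool.Agent.H792.Gen

variable {n : ℕ}

/-- jointly smooth over the open set `U`, off the zero section -/
def JS (U : Set (Fin n → ℝ)) (f : (Fin n → ℝ) → (Fin n → ℝ) → ℝ) : Prop :=
  ∀ x ∈ U, ∀ y, y ≠ 0 → ContDiffAt ℝ ∞ (fun p : (Fin n → ℝ) × (Fin n → ℝ) => f p.1 p.2) (x, y)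

variable {U : Set (Fin n → ℝ)} {f g : (Fin n → ℝ) → (Fin n → ℝ) → ℝ}

theorem JS.sm (h : JS U f) {x : Fin n → ℝ} (hx : x ∈ U) : Sm (f x) := by
  intro y hy
  exact (h x hx y hy).comp y (contDiff_prodMk_right x).contDiffAt

theorem JS.smx (h : JS U f) {x y : Fin n → ℝ} (hx : x ∈ U) (hy : y ≠ 0) :
    ContDiffAt ℝ ∞ (fun z => f z y) x :=
  (h x hx y hy).comp x (contDiff_prodMk_left y).contDiffAt

theorem JS.add (hf : JS U f) (hg : JS U g) : JS U (fun x y => f x y + g x y) :=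
  fun x hx y hy => (hf x hx y hy).add (hg x hx y hy)

theorem JS.sub (hf : JS U f) (hg : JS U g) : JS U (fun x y => f x y - g x y) :=
  fun x hx y hy => (hf x hx y hy).sub (hg x hx y hy)

theorem JS.mul (hf : JS U f) (hg : JS U g) : JS U (fun x y => f x y * g x y) :=
  fun x hx y hy => (hf x hx y hy).mul (hg x hx y hy)

theorem JS.const (c : ℝ) : JS U (fun _ _ : Fin n → ℝ => c) := fun _ _ _ _ => contDiffAt_const

theorem JS.coord (i : Fin n) : JS U (fun _ y : Fin n → ℝ => y i) := fun _ _ _ _ =>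
  ((contDiff_apply ℝ ℝ i).comp contDiff_snd).contDiffAt

theorem JS.sum {ι : Type*} {s : Finset ι} {f : ι → (Fin n → ℝ) → (Fin n → ℝ) → ℝ}
    (hf : ∀ i ∈ s, JS U (f i)) : JS U (fun x y => ∑ i ∈ s, f i x y) := fun x hx y hy =>
  ContDiffAt.sum fun i hi => hf i hi x hx y hy

theorem nhd (hU : IsOpen U) {x y : Fin n → ℝ} (hx : x ∈ U) (hy : y ≠ 0) :
    ∀ᶠ p : (Fin n → ℝ) × (Fin n → ℝ) in 𝓝 (x, y), p.1 ∈ U ∧ p.2 ≠ 0 :=
  (prod_mem_nhds (hU.mem_nhds hx) (isOpen_ne0.mem_nhds hy))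

/-- the derivative in the tangent vector -/
theorem JS.dy (hU : IsOpen U) (h : JS U f) (u : Fin n → ℝ) : JS U (fun x y => dd u (f x) y) := by
  intro x hx y hy
  set Ψ : (Fin n → ℝ) × (Fin n → ℝ) → ℝ := fun p => f p.1 p.2 with hΨ
  have e : (fun p : (Fin n → ℝ) × (Fin n → ℝ) => dd u (f p.1) p.2) =ᶠ[𝓝 (x, y)]
      fun p => fderiv ℝ Ψ p (0, u) := by
    filter_upwards [nhd hU hx hy] with p hp
    have hd : DifferentiableAt ℝ Ψ (p.1, p.2) := (h p.1 hp.1 p.2 hp.2).differentiableAt (by simp)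
    have h2 : HasFDerivAt (fun z : Fin n → ℝ => (p.1, z))
        ((0 : (Fin n → ℝ) →L[ℝ] (Fin n → ℝ)).prod (ContinuousLinearMap.id ℝ (Fin n → ℝ))) p.2 :=
      (hasFDerivAt_const p.1 p.2).prodMk (hasFDerivAt_id p.2)
    have h3 := (show HasFDerivAt Ψ (fderiv ℝ Ψ (p.1, p.2)) ((fun z : Fin n → ℝ => (p.1, z)) p.2)
      from hd.hasFDerivAt).comp p.2 h2
    have h4 : fderiv ℝ (f p.1) p.2 = _ := h3.fderiv
    unfold dd
    rw [h4]; simp
  refine ContDiffAt.congr_of_eventuallyEq ?_ e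
  exact ((h x hx y hy).fderiv_right (m := ∞) (by simp)).clm_apply contDiffAt_const

theorem JS.pd (hU : IsOpen U) (h : JS U f) (k : Fin n) : JS U (fun x y => pd k (f x) y) :=
  JS.dy hU h (Pi.single k 1)

/-- the derivative in the point -/
noncomputable def dx (v : Fin n → ℝ) (f : (Fin n → ℝ) → (Fin n → ℝ) → ℝ) :
    (Fin n → ℝ) → (Fin n → ℝ) → ℝ := fun x y => fderiv ℝ (fun z => f z y) x v

theorem JS.dx (hU : IsOpen U) (h : JS U f) (v : Fin n → ℝ) : JS U (dx v f) := by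
  intro x hx y hy
  set Ψ : (Fin n → ℝ) × (Fin n → ℝ) → ℝ := fun p => f p.1 p.2 with hΨ
  have e : (fun p : (Fin n → ℝ) × (Fin n → ℝ) => LF.dx v f p.1 p.2) =ᶠ[𝓝 (x, y)]
      fun p => fderiv ℝ Ψ p (v, 0) := by
    filter_upwards [nhd hU hx hy] with p hp
    have hd : DifferentiableAt ℝ Ψ (p.1, p.2) := (h p.1 hp.1 p.2 hp.2).differentiableAt (by simp)
    have h2 : HasFDerivAt (fun z : Fin n → ℝ => (z, p.2))
        ((ContinuousLinearMap.id ℝ (Fin n → ℝ)).prod (0 : (Fin n → ℝ) →L[ℝ] (Fin n → ℝ))) p.1 :=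
      (hasFDerivAt_id p.1).prodMk (hasFDerivAt_const p.2 p.1)
    have h3 := (show HasFDerivAt Ψ (fderiv ℝ Ψ (p.1, p.2)) ((fun z : Fin n → ℝ => (z, p.2)) p.1)
      from hd.hasFDerivAt).comp p.1 h2
    have h4 : fderiv ℝ (fun z => f z p.2) p.1 = _ := h3.fderiv
    unfold LF.dx
    rw [h4]; simp
  refine ContDiffAt.congr_of_eventuallyEq ?_ e
  exact ((h x hx y hy).fderiv_right (m := ∞) (by simp)).clm_apply contDiffAt_const

theorem dx_mul (hf : JS U f) (hg : JS U g) (v : Fin n → ℝ) {x y : Fin n → ℝ} (hx : x ∈ U)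
    (hy : y ≠ 0) : dx v (fun x y => f x y * g x y) x y = dx v f x y * g x y + f x y * dx v g x y := by
  unfold LF.dx
  rw [fderiv_fun_mul ((hf.smx hx hy).differentiableAt (by simp))
    ((hg.smx hx hy).differentiableAt (by simp))]
  simp only [_root_.add_apply, _root_.smul_apply, smul_eq_mul]
  ring

theorem dx_sub (hf : JS U f) (hg : JS U g) (v : Fin n → ℝ) {x y : Fin n → ℝ} (hx : x ∈ U)
    (hy : y ≠ 0) : dx v (fun x y => f x y - g x y) x y = dx v f x y - dx v g x y := by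
  unfold LF.dx
  rw [fderiv_fun_sub ((hf.smx hx hy).differentiableAt (by simp))
    ((hg.smx hx hy).differentiableAt (by simp))]
  rfl

theorem dx_sum {ι : Type*} {s : Finset ι} {f : ι → (Fin n → ℝ) → (Fin n → ℝ) → ℝ}
    (hf : ∀ i ∈ s, JS U (f i)) (v : Fin n → ℝ) {x y : Fin n → ℝ} (hx : x ∈ U)
    (hy : y ≠ 0) : dx v (fun x y => ∑ i ∈ s, f i x y) x y = ∑ i ∈ s, dx v (f i) x y := by
  unfold LF.dx
  rw [fderiv_fun_sum fun i hi => ((hf i hi).smx hx hy).differentiableAt (by simp)]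
  simp

theorem dx_const (c : ℝ) (v : Fin n → ℝ) (x y : Fin n → ℝ) :
    dx v (fun _ _ => c) x y = 0 := by
  unfold LF.dx
  simp

/-- the horizontal derivative along `v` for the nonlinear connection `N` -/
noncomputable def Dh (N : Fin n → (Fin n → ℝ) → (Fin n → ℝ) → ℝ) (v : Fin n → ℝ)
    (f : (Fin n → ℝ) → (Fin n → ℝ) → ℝ) : (Fin n → ℝ) → (Fin n → ℝ) → ℝ :=
  fun x y => dx v f x y - ∑ i, N i x y * pd i (f x) y

variable {N : Fin n → (Fin n → ℝ) → (Fin n → ℝ) → ℝ} {v : Fin n → ℝ}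

theorem Dh_mul (hf : JS U f) (hg : JS U g) {x y : Fin n → ℝ} (hx : x ∈ U) (hy : y ≠ 0) :
    Dh N v (fun x y => f x y * g x y) x y = Dh N v f x y * g x y + f x y * Dh N v g x y := by
  unfold Dh
  rw [dx_mul hf hg v hx hy]
  have e : ∀ i, N i x y * pd i (fun y => f x y * g x y) y =
      (N i x y * pd i (f x) y) * g x y + f x y * (N i x y * pd i (g x) y) := by
    intro i
    rw [pd_mul (hf.sm hx) (hg.sm hx) i hy]; ring
  simp only [e, Finset.sum_add_distrib, ← Finset.sum_mul, ← Finset.mul_sum]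
  ring

theorem Dh_sub (hf : JS U f) (hg : JS U g) {x y : Fin n → ℝ} (hx : x ∈ U) (hy : y ≠ 0) :
    Dh N v (fun x y => f x y - g x y) x y = Dh N v f x y - Dh N v g x y := by
  unfold Dh
  rw [dx_sub hf hg v hx hy]
  have e : ∀ i, N i x y * pd i (fun y => f x y - g x y) y =
      N i x y * pd i (f x) y - N i x y * pd i (g x) y := by
    intro i
    rw [pd_sub (hf.sm hx) (hg.sm hx) i hy]; ring
  simp only [e, Finset.sum_sub_distrib]
  ring

theorem Dh_sum {ι : Type*} {s : Finset ι} {f : ι → (Fin n → ℝ) → (Fin n → ℝ) → ℝ}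
    (hf : ∀ i ∈ s, JS U (f i)) {x y : Fin n → ℝ} (hx : x ∈ U)
    (hy : y ≠ 0) : Dh N v (fun x y => ∑ i ∈ s, f i x y) x y = ∑ i ∈ s, Dh N v (f i) x y := by
  unfold Dh
  rw [dx_sum hf v hx hy, Finset.sum_sub_distrib]
  congr 1
  have e : ∀ k, N k x y * pd k (fun y => ∑ i ∈ s, f i x y) y =
      ∑ i ∈ s, N k x y * pd k (f i x) y := by
    intro k
    rw [pd_sum (fun i hi => (hf i hi).sm hx) k hy, Finset.mul_sum]
  simp only [e]
  rw [Finset.sum_comm]

theorem Dh_const (c : ℝ) (x y : Fin n → ℝ) : Dh N v (fun _ _ => c) x y = 0 := by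
  unfold Dh
  rw [dx_const]
  simp [pd_const]

/-- the horizontal derivative only depends on the values over `U` off the zero section -/
theorem Dh_congr (hU : IsOpen U) (h : ∀ x ∈ U, ∀ y, y ≠ 0 → f x y = g x y) {x y : Fin n → ℝ}
    (hx : x ∈ U) (hy : y ≠ 0) : Dh N v f x y = Dh N v g x y := by
  unfold Dh
  congr 1
  · unfold LF.dx
    have : (fun z => f z y) =ᶠ[𝓝 x] fun z => g z y := by
      filter_upwards [hU.mem_nhds hx] with z hz using h z hz y hy
    rw [this.fderiv_eq]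
  · exact Finset.sum_congr rfl fun i _ => by rw [pd_congr (fun z hz => h x hx z hz) i hy]

/-- the commutator of the horizontal and the vertical derivative -/
theorem Dh_pd (hU : IsOpen U) (hf : JS U f) (hN : ∀ i, JS U (N i)) (a : Fin n) {x y : Fin n → ℝ}
    (hx : x ∈ U) (hy : y ≠ 0) :
    Dh N v (fun x y => pd a (f x) y) x y =
      pd a (Dh N v f x) y + ∑ i, pd a (N i x) y * pd i (f x) y := by
  have h1 : pd a (Dh N v f x) y = pd a (dx v f x) y -
      ∑ i, (pd a (N i x) y * pd i (f x) y + N i x y * pd a (pd i (f x)) y) := by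
    have e : Dh N v f x = fun y => dx v f x y - ∑ i, N i x y * pd i (f x) y := rfl
    rw [e, pd_sub ((hf.dx hU v).sm hx)
      (Sm.sum fun i _ => ((hN i).sm hx).mul ((hf.sm hx).pd i)) a hy,
      pd_sum (fun i _ => ((hN i).sm hx).mul ((hf.sm hx).pd i)) a hy]
    congr 1
    exact Finset.sum_congr rfl fun i _ => pd_mul ((hN i).sm hx) ((hf.sm hx).pd i) a hy
  have h2 : dx v (fun x y => pd a (f x) y) x y = pd a (dx v f x) y :=
    mixed (hf x hx y hy) (Pi.single a 1) v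
  have h3 : Dh N v (fun x y => pd a (f x) y) x y = pd a (dx v f x) y -
      ∑ i, N i x y * pd a (pd i (f x)) y := by
    unfold Dh
    rw [h2]
    congr 1
    exact Finset.sum_congr rfl fun i _ => by rw [pd_comm (hf.sm hx) i a hy]
  rw [h3, h1, Finset.sum_add_distrib]
  ring

theorem JS.Dh (hU : IsOpen U) (hf : JS U f) (hN : ∀ i, JS U (N i)) : JS U (Dh N v f) :=
  (hf.dx hU v).sub (JS.sum fun i _ => (hN i).mul (hf.pd hU i))

end Pool.Agent.H792.LF
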