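import Pool.Agent.H792.LF.Flat
import Pool.Graph.R_seed8.W617.LG.Asm5
import Pool.Graph.R_seed8.W550.LG2.SRank
import Pool.Graph.R_seed8.W369.LG.Tr1

/-!
# Landsberg metrics with a Euclidean tangent space
-/

set_option autoImplicit false

open scoped BigOperators ContDiff Topology Matrix
open Filter Set

namespace Pool.Agent.H792.LF

open Pool.Agent.R774.BW Pool.Agent.H792.Gen

variable {n : ℕ} {U : Set (Fin n → ℝ)} {F : (Fin n → ℝ) → (Fin n → ℝ) → ℝ}
  {G : (Fin n → ℝ) → (Fin n → ℝ) → (Fin n → ℝ)}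

theorem it2 {f : (Fin n → ℝ) → ℝ} (hf : Sm f) {y : Fin n → ℝ} (hy : y ≠ 0) (a b : Fin n → ℝ) :
    iteratedFDeriv ℝ 2 f y ![a, b] = dd a (dd b f) y := by
  have hd : DifferentiableAt ℝ (fderiv ℝ f) y :=
    ((hf y hy).fderiv_right (m := ∞) (by simp)).differentiableAt (by simp)
  rw [iteratedFDeriv_two_apply]
  unfold dd
  rw [fderiv_clm_apply hd (differentiableAt_const _)]
  simp

theorem it3 {f : (Fin n → ℝ) → ℝ} (hf : Sm f) {y : Fin n → ℝ} (hy : y ≠ 0) (a b c : Fin n → ℝ) :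
    iteratedFDeriv ℝ 3 f y ![a, b, c] = dd a (dd b (dd c f)) y := by
  rw [iteratedFDeriv_succ_apply_left]
  have hd : DifferentiableAt ℝ (iteratedFDeriv ℝ 2 f) y :=
    (hf y hy).differentiableAt_iteratedFDeriv (WithTop.coe_lt_coe.2 (ENat.natCast_lt_top 2))
  have h1 := fderiv_continuousMultilinear_apply_const_apply hd ![b, c] a
  have h2 : Fin.tail ![a, b, c] = ![b, c] := by
    ext i; fin_cases i <;> rfl
  rw [h2]
  simp only [Matrix.cons_val_zero]
  rw [← h1]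
  have h3 : (fun z => iteratedFDeriv ℝ 2 f z ![b, c]) =ᶠ[𝓝 y] dd b (dd c f) := by
    filter_upwards [isOpen_ne0.mem_nhds hy] with z hz using it2 hf hz b c
  rw [h3.fderiv_eq]
  rfl

/-- a flat tangent norm is Euclidean -/
theorem euclid_of_flat (hn : 3 ≤ n) (hF : IsFinsler U F) {x : Fin n → ℝ} (hx : x ∈ U)
    (h : Flat F x) :
    ∃ M : Matrix (Fin n) (Fin n) ℝ, M.PosDef ∧ ∀ y, F x y = √(y ⬝ᵥ M *ᵥ y) := by
  have hQ := q_mn hF hx
  set f : (Fin n → ℝ) → ℝ := fun y => F x y ^ 2 / 2 with hf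
  have hfe : f = fun y => (1 / 2 : ℝ) * q F x y := by
    funext y; rw [hf]; unfold q; ring
  have hfs : Sm f := by
    rw [hfe]; exact (sm_const _).mul hQ.sm
  have e1 : ∀ a : Fin n, ∀ z, z ≠ 0 → pd a f z = 1 / 2 * pd a (q F x) z := fun a z hz => by
    rw [hfe, pd_const_mul hQ.sm _ a hz]
  have e2 : ∀ a b : Fin n, ∀ z, z ≠ 0 → pd a (pd b f) z = 1 / 2 * pd a (pd b (q F x)) z :=
    fun a b z hz => by rw [pd_congr (e1 b) a hz, pd_const_mul (hQ.sm.pd b) _ a hz]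
  have e3 : ∀ a b c : Fin n, ∀ z, z ≠ 0 →
      pd a (pd b (pd c f)) z = 1 / 2 * pd a (pd b (pd c (q F x))) z :=
    fun a b c z hz => by rw [pd_congr (e2 b c) a hz, pd_const_mul ((hQ.sm.pd c).pd b) _ a hz]
  have i2 : ∀ a b : Fin n, ∀ z, z ≠ 0 → iteratedFDeriv ℝ 2 f z
      ![(Pi.single a (1 : ℝ) : Fin n → ℝ), (Pi.single b (1 : ℝ) : Fin n → ℝ)] =
      1 / 2 * pd a (pd b (q F x)) z := fun a b z hz => by
    rw [it2 hfs hz, ← e2 a b z hz]; rfl
  have i3 : ∀ a b c : Fin n, ∀ z, z ≠ 0 → iteratedFDeriv ℝ 3 f z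
      ![(Pi.single a (1 : ℝ) : Fin n → ℝ), (Pi.single b (1 : ℝ) : Fin n → ℝ),
        (Pi.single c (1 : ℝ) : Fin n → ℝ)] =
      1 / 2 * pd a (pd b (pd c (q F x))) z := fun a b c z hz => by
    rw [it3 hfs hz, ← e3 a b c z hz]; rfl
  have hmat : ∀ z, z ≠ 0 → (Matrix.of fun a b : Fin n => iteratedFDeriv ℝ 2 f z
      ![(Pi.single a (1 : ℝ) : Fin n → ℝ), (Pi.single b (1 : ℝ) : Fin n → ℝ)]) =
      (1 / 2 : ℝ) • A (q F x) z := by
    intro z hz
    ext a b
    rw [Matrix.of_apply, i2 a b z hz]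
    rfl
  have hinv : ∀ z, z ≠ 0 → ((1 / 2 : ℝ) • A (q F x) z)⁻¹ = (2 : ℝ) • (A (q F x) z)⁻¹ := by
    intro z hz
    apply Matrix.inv_eq_left_inv
    rw [Matrix.smul_mul, Matrix.mul_smul, PA hF hx hz, smul_smul]
    norm_num
  refine Pool.Agent.W617.LG.final Pool.Agent.W369.LG.TR1.tr1 Pool.Agent.W490.LG.tr2
    Pool.Agent.W617.LG.s_I (Pool.Agent.W617.LG.s_MAIN Pool.Agent.W550.LG2.s_rank) n hn (F x)
    ?_ ?_ ?_ ?_ ?_
  · have h1 : ContDiffOn ℝ ∞ (fun u : Fin n → ℝ => (x, u)) {y | y ≠ 0} :=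
      (contDiff_prodMk_right x).contDiffOn
    exact hF.smooth.comp h1 fun u hu => ⟨hx, hu⟩
  · exact fun y hy => hF.pos x hx y hy
  · intro t y ht
    have h0 : F x 0 = 0 := by
      have := hF.hom x hx 0 2 (by norm_num)
      rw [smul_zero] at this
      linarith
    rcases ht.eq_or_lt with rfl | ht
    · rw [zero_smul, h0, zero_mul]
    · exact hF.hom x hx y t ht
  · intro z hz
    have h1 := hmat z hz
    rw [h1]
    exact (A_posDef hQ hz).smul (by norm_num)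
  · intro z hz i j k l
    have h1 := hmat z hz
    have h2 := congrFun (congrFun (h z hz i j) k) l
    have hs : ∀ c d e : Fin n, pd c (pd d (pd e (q F x))) z = pd c (pd e (pd d (q F x))) z :=
      fun c d e => pd_congr (fun z hz => pd_comm hQ.sm d e hz) c hz
    have hPs : ∀ p r : Fin n, (A (q F x) z)⁻¹ p r = (A (q F x) z)⁻¹ r p := fun p r =>
      P_symm hQ hz p r
    simp only [S, Matrix.sub_apply, Matrix.mul_apply, T, Matrix.of_apply, Matrix.zero_apply] at h2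
    have h3 : ∑ p : Fin n, ∑ r : Fin n, (A (q F x) z)⁻¹ p r *
        (pd i (pd k (pd p (q F x))) z * pd j (pd l (pd r (q F x))) z) =
        ∑ r, (∑ p, pd i (pd k (pd p (q F x))) z * (A (q F x) z)⁻¹ p r) *
          pd j (pd r (pd l (q F x))) z := by
      rw [Finset.sum_comm]
      refine Finset.sum_congr rfl fun r _ => ?_
      rw [Finset.sum_mul]
      refine Finset.sum_congr rfl fun p _ => ?_
      rw [hs j r l]
      ring
    have h4 : ∑ p : Fin n, ∑ r : Fin n, (A (q F x) z)⁻¹ p r *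
        (pd i (pd l (pd p (q F x))) z * pd j (pd k (pd r (q F x))) z) =
        ∑ r, (∑ p, pd j (pd k (pd p (q F x))) z * (A (q F x) z)⁻¹ p r) *
          pd i (pd r (pd l (q F x))) z := by
      refine Finset.sum_congr rfl fun r _ => ?_
      rw [Finset.sum_mul]
      refine Finset.sum_congr rfl fun p _ => ?_
      rw [hs i r l, hPs p r]
      ring
    rw [← h3, ← h4] at h2
    have h5 : ∑ p : Fin n, ∑ r : Fin n, ((2 : ℝ) • (A (q F x) z)⁻¹) p r *
        ((1 / 2 * pd i (pd k (pd p (q F x))) z) * (1 / 2 * pd j (pd l (pd r (q F x))) z) -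
        (1 / 2 * pd i (pd l (pd p (q F x))) z) * (1 / 2 * pd j (pd k (pd r (q F x))) z)) = 0 := by
      have h6 : ∀ p r : Fin n, ((2 : ℝ) • (A (q F x) z)⁻¹) p r *
        ((1 / 2 * pd i (pd k (pd p (q F x))) z) * (1 / 2 * pd j (pd l (pd r (q F x))) z) -
        (1 / 2 * pd i (pd l (pd p (q F x))) z) * (1 / 2 * pd j (pd k (pd r (q F x))) z)) =
        1 / 2 * ((A (q F x) z)⁻¹ p r *
        (pd i (pd k (pd p (q F x))) z * pd j (pd l (pd r (q F x))) z) -
        (A (q F x) z)⁻¹ p r *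
        (pd i (pd l (pd p (q F x))) z * pd j (pd k (pd r (q F x))) z)) := by
        intro p r
        rw [Matrix.smul_apply, smul_eq_mul]
        ring
      simp only [h6, ← Finset.mul_sum, Finset.sum_sub_distrib]
      rw [h2, mul_zero]
    have h7 : ∀ p r : Fin n, (Matrix.of fun a b : Fin n => iteratedFDeriv ℝ 2 f z
      ![(Pi.single a (1 : ℝ) : Fin n → ℝ), (Pi.single b (1 : ℝ) : Fin n → ℝ)])⁻¹ p r =
      ((2 : ℝ) • (A (q F x) z)⁻¹) p r := by
      intro p r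
      rw [h1, hinv z hz]
    rw [← h5]
    refine Finset.sum_congr rfl fun p _ => Finset.sum_congr rfl fun r _ => ?_
    rw [h7 p r, i3 i k p z hz, i3 j l r z hz, i3 i l p z hz, i3 j k r z hz]

/-- a Euclidean norm has vanishing third derivatives -/
theorem flat_of_euclid (hF : IsFinsler U F) {x : Fin n → ℝ} (hx : x ∈ U)
    {M : Matrix (Fin n) (Fin n) ℝ} (h : ∀ y, F x y = √(y ⬝ᵥ M *ᵥ y)) : Flat F x := by
  intro y hy a b
  have h1 : ∀ z : Fin n → ℝ, z ≠ 0 → q F x z = ∑ k, ∑ j, M k j * z k * z j := by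
    intro z hz
    have hpos := hF.pos x hx z hz
    rw [h z] at hpos
    have h2 := Real.sqrt_pos.1 hpos
    unfold q
    rw [h z, Real.sq_sqrt h2.le]
    simp only [dotProduct, Matrix.mulVec, Finset.mul_sum]
    exact Finset.sum_congr rfl fun k _ => Finset.sum_congr rfl fun j _ => by ring
  have h3 : ∀ c, T F c x y = 0 := by
    intro c
    ext d e
    simp only [T, Matrix.of_apply, Matrix.zero_apply]
    rw [pd_congr (fun z hz => pd_congr (fun z hz => pd_congr h1 e hz) d hz) c hy]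
    exact pd3_quad _ c d e hy
  unfold S
  rw [h3 a, h3 b]
  simp

/-- Landsberg metrics with one Euclidean tangent space are Riemannian -/
theorem main (hn : 3 ≤ n) (hF : IsFinsler U F) (hG : IsSpray U F G) (hL : IsLandsberg U F G)
    (hU : IsPreconnected U) {p : Fin n → ℝ} (hp : p ∈ U) {M : Matrix (Fin n) (Fin n) ℝ}
    (h : ∀ y, F p y = √(y ⬝ᵥ M *ᵥ y)) {x : Fin n → ℝ} (hx : x ∈ U) :
    ∃ M : Matrix (Fin n) (Fin n) ℝ, M.PosDef ∧ ∀ y, F x y = √(y ⬝ᵥ M *ᵥ y) :=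
  euclid_of_flat hn hF hx (flat_connected hF hG hL hU hp (flat_of_euclid hF hp h) x hx)

end Pool.Agent.H792.LF
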