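import Pool.Agent.H792.LF.Joint
import Pool.Agent.H792.Gen.Final

/-!
# The horizontal derivatives of a Landsberg metric
-/

set_option autoImplicit false

open scoped BigOperators ContDiff Topology Matrix
open Filter Set

namespace Pool.Agent.H792.LF

open Pool.Agent.R774.BW Pool.Agent.H792.Gen

variable {n : ℕ} {U : Set (Fin n → ℝ)} {F : (Fin n → ℝ) → (Fin n → ℝ) → ℝ}
  {G : (Fin n → ℝ) → (Fin n → ℝ) → (Fin n → ℝ)}

/-- the square of the metric -/
def q (F : (Fin n → ℝ) → (Fin n → ℝ) → ℝ) (x y : Fin n → ℝ) : ℝ := F x y ^ 2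

theorem q_JS (hF : IsFinsler U F) : JS U (q F) := fun _ hx _ hy => hF.cd hx hy

theorem q_mn (hF : IsFinsler U F) {x : Fin n → ℝ} (hx : x ∈ U) : MN (q F x) := hF.mn hx

theorem P_JS (hF : IsFinsler U F) (i j : Fin n) : JS U (fun x y => P (q F x) i j y) := by
  have hU := hF.isOpen
  have hq2 : ∀ a b : Fin n, JS U (fun x y => pd a (pd b (q F x)) y) := fun a b =>
    JS.pd hU (JS.pd hU (q_JS hF) b) a
  intro x hx y hy
  have hdet : ContDiffAt ℝ ∞ (fun p : (Fin n → ℝ) × (Fin n → ℝ) => (A (q F p.1) p.2).det)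
      (x, y) := by
    simp only [Matrix.det_apply']
    refine ContDiffAt.sum fun s _ => ?_
    refine contDiffAt_const.mul ?_
    exact contDiffAt_prod fun k _ => hq2 _ _ x hx y hy
  have hadj : ContDiffAt ℝ ∞ (fun p : (Fin n → ℝ) × (Fin n → ℝ) =>
      (A (q F p.1) p.2).adjugate i j) (x, y) := by
    simp only [Matrix.adjugate_apply, Matrix.det_apply']
    refine ContDiffAt.sum fun s _ => ?_
    refine contDiffAt_const.mul ?_
    refine contDiffAt_prod fun k _ => ?_
    by_cases hk : s k = j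
    · simp only [hk, Matrix.updateRow_self]
      exact contDiffAt_const
    · simp only [Matrix.updateRow_ne hk]
      exact hq2 _ _ x hx y hy
  have h2 : (fun p : (Fin n → ℝ) × (Fin n → ℝ) => P (q F p.1) i j p.2) =
      fun p => ((A (q F p.1) p.2).det)⁻¹ * (A (q F p.1) p.2).adjugate i j := by
    ext z
    simp [P, Matrix.inv_def, Ring.inverse_eq_inv']
  rw [h2]
  exact (hdet.inv (A_det_pos (q_mn hF hx) hy).ne').mul hadj

/-- the right hand side of the equation for the spray -/
noncomputable def R (F : (Fin n → ℝ) → (Fin n → ℝ) → ℝ) (l : Fin n) (x y : Fin n → ℝ) : ℝ :=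
  (∑ k : Fin n, pd l (dx (Pi.single k 1) (q F) x) y * y k) - dx (Pi.single l 1) (q F) x y

theorem R_JS (hF : IsFinsler U F) (l : Fin n) : JS U (R F l) :=
  (JS.sum fun k _ => (((q_JS hF).dx hF.isOpen _).pd hF.isOpen l).mul (JS.coord k)).sub
    ((q_JS hF).dx hF.isOpen _)

theorem spray_eq (hF : IsFinsler U F) (hG : IsSpray U F G) {x y : Fin n → ℝ} (hx : x ∈ U)
    (hy : y ≠ 0) (l : Fin n) :
    ∑ i, pd l (pd i (q F x)) y * G x y i = 1 / 2 * R F l x y := by
  have hsp := hG x hx y hy l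
  simp only [mixed (f := fun z u => F z u ^ 2) (hF.cd hx hy)] at hsp
  have e3 : ∑ i, pd l (pd i (q F x)) y * G x y i = 2 * ∑ i : Fin n,
        (1 / 2 : ℝ) * fderiv ℝ (fun w => fderiv ℝ (fun u => F x u ^ 2) w
            (Pi.single i (1 : ℝ) : Fin n → ℝ)) y (Pi.single l (1 : ℝ) : Fin n → ℝ)
          * G x y i := by
    rw [Finset.mul_sum]
    refine Finset.sum_congr rfl fun i _ => ?_
    unfold pd q
    ring
  rw [e3, hsp]
  unfold R dx pd q
  ring

theorem G_JS (hF : IsFinsler U F) (hG : IsSpray U F G) (i : Fin n) : JS U (fun x y => G x y i) := by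
  have hs : JS U (fun x y => ∑ l, P (q F x) i l y * ((1 / 2 : ℝ) * R F l x y)) :=
    JS.sum fun l _ => (P_JS hF i l).mul ((JS.const _).mul (R_JS hF l))
  intro x hx y hy
  refine (hs x hx y hy).congr_of_eventuallyEq ?_
  filter_upwards [nhd hF.isOpen hx hy] with p hp
  have hQ := q_mn hF hp.1
  have h1 : A (q F p.1) p.2 *ᵥ (fun m => G p.1 p.2 m) = fun l => (1 / 2 : ℝ) * R F l p.1 p.2 := by
    ext l
    simp only [Matrix.mulVec, dotProduct, A, Matrix.of_apply]
    exact spray_eq hF hG hp.1 hp.2 l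
  have h5 := congrArg (fun v => (A (q F p.1) p.2)⁻¹ *ᵥ v) h1
  simp only [Matrix.mulVec_mulVec,
    Matrix.nonsing_inv_mul (A (q F p.1) p.2) (isUnit_iff_ne_zero.2 (A_det_pos hQ hp.2).ne'),
    Matrix.one_mulVec] at h5
  have h6 := congrFun h5 i
  rw [h6]
  simp only [Matrix.mulVec, dotProduct, P]

/-- the nonlinear connection in the direction `v` -/
noncomputable def N (G : (Fin n → ℝ) → (Fin n → ℝ) → (Fin n → ℝ)) (v : Fin n → ℝ) (i : Fin n)
    (x y : Fin n → ℝ) : ℝ := dd v (fun z => G x z i) y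

theorem N_JS (hF : IsFinsler U F) (hG : IsSpray U F G) (v : Fin n → ℝ) (i : Fin n) :
    JS U (N G v i) := (G_JS hF hG i).dy hF.isOpen v

/-- the `x`-derivatives of `q` are homogeneous of degree two -/
theorem dxq_hom (hF : IsFinsler U F) {x : Fin n → ℝ} (hx : x ∈ U) (v : Fin n → ℝ) :
    Hom 2 (dx v (q F) x) := by
  intro y hy t ht
  unfold dx
  have e : (fun z => q F z (t • y)) =ᶠ[𝓝 x] fun z => t ^ 2 * q F z y := by
    filter_upwards [hF.isOpen.mem_nhds hx] with z hz
    unfold q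
    rw [hF.hom z hz y t ht]
    ring
  rw [e.fderiv_eq, fderiv_const_mul (((q_JS hF).smx hx hy).differentiableAt (by simp))]
  simp

/-- the horizontal derivative of the metric vanishes, for coordinate directions -/
theorem e_coord (hF : IsFinsler U F) (hG : IsSpray U F G) {x y : Fin n → ℝ} (hx : x ∈ U)
    (hy : y ≠ 0) (j : Fin n) :
    ∑ i, pd i (q F x) y * pd j (fun z => G x z i) y = dx (Pi.single j 1) (q F) x y := by
  have hQ := q_mn hF hx
  have hGs : ∀ i, Sm (fun z => G x z i) := fun i => spray_sm hF hG hx i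
  have hXs : ∀ k : Fin n, Sm (dx (Pi.single k 1) (q F) x) := fun k =>
    ((q_JS hF).dx hF.isOpen _).sm hx
  -- contraction with `y`
  have h1 : ∀ z, z ≠ 0 → ∑ i, pd i (q F x) z * G x z i =
      1 / 2 * ∑ k, z k * dx (Pi.single k 1) (q F) x z := by
    intro z hz
    have e1 : ∑ l, z l * ∑ i, pd l (pd i (q F x)) z * G x z i =
        ∑ i, pd i (q F x) z * G x z i := by
      simp only [Finset.mul_sum]
      rw [Finset.sum_comm]
      refine Finset.sum_congr rfl fun i _ => ?_
      rw [← euler2 hQ i hz, Finset.sum_mul]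
      exact Finset.sum_congr rfl fun l _ => by ring
    have e2 : ∑ l, z l * (1 / 2 * R F l x z) =
        1 / 2 * ∑ k, z k * dx (Pi.single k 1) (q F) x z := by
      unfold R
      have e3 : ∑ l, z l * ∑ k : Fin n, pd l (dx (Pi.single k 1) (q F) x) z * z k =
          ∑ k, 2 * (z k * dx (Pi.single k 1) (q F) x z) := by
        simp only [Finset.mul_sum]
        rw [Finset.sum_comm]
        refine Finset.sum_congr rfl fun k _ => ?_
        have := (dxq_hom hF hx (Pi.single k 1)).euler (hXs k) hz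
        push_cast at this
        have h4 : ∑ l, z l * (pd l (dx (Pi.single k 1) (q F) x) z * z k) =
            (∑ l, z l * pd l (dx (Pi.single k 1) (q F) x) z) * z k := by
          rw [Finset.sum_mul]
          exact Finset.sum_congr rfl fun l _ => by ring
        rw [h4, this]
        ring
      have e4 : ∑ l, z l * (1 / 2 * ((∑ k : Fin n, pd l (dx (Pi.single k 1) (q F) x) z * z k) -
          dx (Pi.single l 1) (q F) x z)) =
          1 / 2 * (∑ l, z l * ∑ k : Fin n, pd l (dx (Pi.single k 1) (q F) x) z * z k) -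
          1 / 2 * ∑ k, z k * dx (Pi.single k 1) (q F) x z := by
        rw [Finset.mul_sum, Finset.mul_sum, ← Finset.sum_sub_distrib]
        exact Finset.sum_congr rfl fun l _ => by ring
      rw [e4, e3, ← Finset.mul_sum]
      ring
    rw [← e1, ← e2]
    exact Finset.sum_congr rfl fun l _ => by rw [spray_eq hF hG hx hz l]
  -- differentiate
  have h2 := pd_congr h1 j hy
  rw [pd_sum (fun i _ => (hQ.sm.pd i).mul (hGs i)) j hy,
    pd_const_mul (Sm.sum fun k _ => (sm_coord k).mul (hXs k)) _ j hy,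
    pd_sum (fun k _ => (sm_coord k).mul (hXs k)) j hy] at h2
  have h3 : ∀ i, pd j (fun z => pd i (q F x) z * G x z i) y =
      pd j (pd i (q F x)) y * G x y i + pd i (q F x) y * pd j (fun z => G x z i) y := fun i =>
    pd_mul (hQ.sm.pd i) (hGs i) j hy
  have h4 : ∀ k, pd j (fun z : Fin n → ℝ => z k * dx (Pi.single k 1) (q F) x z) y =
      (if k = j then 1 else 0) * dx (Pi.single k 1) (q F) x y +
        y k * pd j (dx (Pi.single k 1) (q F) x) y := fun k => by
    rw [pd_mul (sm_coord k) (hXs k) j hy, pd_coord]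
  simp only [h3, h4, Finset.sum_add_distrib] at h2
  rw [spray_eq hF hG hx hy j] at h2
  unfold R at h2
  simp only [ite_mul, one_mul, zero_mul, Finset.sum_ite_eq', Finset.mem_univ, if_true] at h2
  have h5 : ∑ k, y k * pd j (dx (Pi.single k 1) (q F) x) y =
      ∑ k, pd j (dx (Pi.single k 1) (q F) x) y * y k :=
    Finset.sum_congr rfl fun k _ => mul_comm _ _
  rw [h5] at h2
  linarith

/-- `D_v F² = 0` -/
theorem Dq (hF : IsFinsler U F) (hG : IsSpray U F G) (v : Fin n → ℝ) {x y : Fin n → ℝ}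
    (hx : x ∈ U) (hy : y ≠ 0) : Dh (N G v) v (q F) x y = 0 := by
  unfold Dh N
  have h1 : dx v (q F) x y = ∑ k, v k * dx (Pi.single k 1) (q F) x y :=
    fderiv_eq_sum (fun z => q F z y) x v
  rw [h1, sub_eq_zero]
  simp only [dd_eq, Finset.sum_mul, ← e_coord hF hG hx hy, Finset.mul_sum]
  rw [Finset.sum_comm]
  exact Finset.sum_congr rfl fun k _ => Finset.sum_congr rfl fun i _ => by ring

section

variable (hF : IsFinsler U F) (hG : IsSpray U F G) (hL : IsLandsberg U F G) (v : Fin n → ℝ)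
  {x : Fin n → ℝ} (hx : x ∈ U)

include hF hG hx

theorem Dq1 {y : Fin n → ℝ} (hy : y ≠ 0) (b : Fin n) :
    Dh (N G v) v (fun x y => pd b (q F x) y) x y =
      ∑ i, pd b (N G v i x) y * pd i (q F x) y := by
  rw [Dh_pd hF.isOpen (q_JS hF) (N_JS hF hG v) b hx hy]
  rw [pd_congr (g := fun _ => (0:ℝ)) (fun z hz => Dq hF hG v hx hz) b hy, pd_const, zero_add]

include hL

/-- the Landsberg condition for the nonlinear connection -/
theorem lands_N {y : Fin n → ℝ} (hy : y ≠ 0) (a b : Fin n) :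
    ∑ i, pd i (q F x) y * pd a (pd b (N G v i x)) y = 0 :=
  lands_vec hF hG hL hx y hy (Pi.single a 1) (Pi.single b 1) v

/-- `D_v q_ab = Σ_i (N^i_a q_ib + N^i_b q_ai)` -/
theorem Dq2 {y : Fin n → ℝ} (hy : y ≠ 0) (a b : Fin n) :
    Dh (N G v) v (fun x y => pd a (pd b (q F x)) y) x y =
      ∑ i, pd a (N G v i x) y * pd i (pd b (q F x)) y +
      ∑ i, pd a (pd i (q F x)) y * pd b (N G v i x) y := by
  have hQ := q_mn hF hx
  have hNs : ∀ i, Sm (N G v i x) := fun i => (N_JS hF hG v i).sm hx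
  rw [Dh_pd hF.isOpen ((q_JS hF).pd hF.isOpen b) (N_JS hF hG v) a hx hy,
    pd_congr (fun z hz => Dq1 hF hG v hx hz b) a hy,
    pd_sum (fun i _ => ((hNs i).pd b).mul (hQ.sm.pd i)) a hy]
  have h1 : ∀ i, pd a (fun y => pd b (N G v i x) y * pd i (q F x) y) y =
      pd i (q F x) y * pd a (pd b (N G v i x)) y + pd a (pd i (q F x)) y * pd b (N G v i x) y := by
    intro i
    rw [pd_mul ((hNs i).pd b) (hQ.sm.pd i) a hy]
    ring
  simp only [h1, Finset.sum_add_distrib]
  rw [lands_N hF hG hL v hx hy]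
  ring

/-- the lowered Berwald curvature in the direction `v` -/
theorem beta_symm {y : Fin n → ℝ} (hy : y ≠ 0) (a b c : Fin n) :
    ∑ i, pd a (pd b (N G v i x)) y * pd i (pd c (q F x)) y =
      ∑ i, pd a (pd c (N G v i x)) y * pd i (pd b (q F x)) y := by
  have hQ := q_mn hF hx
  have h := hess_X_symm hQ.sm (G := fun i z => G x z i) (fun i => spray_sm hF hG hx i)
    (fun y hy u v w => lands_vec hF hG hL hx y hy u v w) hy (Pi.single c 1) v (Pi.single a 1)
    (Pi.single b 1)
  have e : ∀ z : Fin n → ℝ, ∀ b c : Fin n, dd (Pi.single c 1) (dd (X (fun i z => G x z i) y v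
      (Pi.single a 1) (Pi.single b 1)) (q F x)) y =
      ∑ i, pd a (pd b (N G v i x)) y * pd i (pd c (q F x)) y := by
    intro _ b c
    rw [dd_dd_eq hQ.sm _ _ hy]
    refine Finset.sum_congr rfl fun i _ => ?_
    rw [dd_single, pd_comm hQ.sm c i hy]
    congr 1
    unfold X
    have hGs := spray_sm hF hG hx i
    rw [dd_comm (Sm.dd hGs _) v (Pi.single a 1) hy]
    exact dd_congr (fun z hz => dd_comm hGs v (Pi.single b 1) hz) (Pi.single a 1) hy
  have h2 := e y b c
  have h3 := e y c b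
  rw [← h2, ← h3]
  exact h

/-- `D_v q_abc = Σ_i (N^i_a q_ibc + N^i_b q_aic + N^i_c q_abi) + 2 β_abc` -/
theorem Dq3 {y : Fin n → ℝ} (hy : y ≠ 0) (a b c : Fin n) :
    Dh (N G v) v (fun x y => pd a (pd b (pd c (q F x))) y) x y =
      ∑ i, pd a (N G v i x) y * pd i (pd b (pd c (q F x))) y +
      ∑ i, pd b (N G v i x) y * pd a (pd i (pd c (q F x))) y +
      ∑ i, pd a (pd b (pd i (q F x))) y * pd c (N G v i x) y +
      2 * ∑ i, pd a (pd b (N G v i x)) y * pd i (pd c (q F x)) y := by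
  have hQ := q_mn hF hx
  have hNs : ∀ i, Sm (N G v i x) := fun i => (N_JS hF hG v i).sm hx
  rw [Dh_pd hF.isOpen (((q_JS hF).pd hF.isOpen c).pd hF.isOpen b) (N_JS hF hG v) a hx hy,
    pd_congr (fun z hz => Dq2 hF hG hL v hx hz b c) a hy,
    pd_add (Sm.sum fun i _ => ((hNs i).pd b).mul ((hQ.sm.pd c).pd i))
      (Sm.sum fun i _ => ((hQ.sm.pd i).pd b).mul ((hNs i).pd c)) a hy,
    pd_sum (fun i _ => ((hNs i).pd b).mul ((hQ.sm.pd c).pd i)) a hy,
    pd_sum (fun i _ => ((hQ.sm.pd i).pd b).mul ((hNs i).pd c)) a hy]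
  have h1 : ∀ i, pd a (fun y => pd b (N G v i x) y * pd i (pd c (q F x)) y) y =
      pd a (pd b (N G v i x)) y * pd i (pd c (q F x)) y +
      pd b (N G v i x) y * pd a (pd i (pd c (q F x))) y := fun i =>
    pd_mul ((hNs i).pd b) ((hQ.sm.pd c).pd i) a hy
  have h2 : ∀ i, pd a (fun y => pd b (pd i (q F x)) y * pd c (N G v i x) y) y =
      pd a (pd b (pd i (q F x))) y * pd c (N G v i x) y +
      pd b (pd i (q F x)) y * pd a (pd c (N G v i x)) y := fun i =>
    pd_mul ((hQ.sm.pd i).pd b) ((hNs i).pd c) a hy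
  simp only [h1, h2, Finset.sum_add_distrib]
  have h3 : ∑ i, pd b (pd i (q F x)) y * pd a (pd c (N G v i x)) y =
      ∑ i, pd a (pd b (N G v i x)) y * pd i (pd c (q F x)) y := by
    rw [beta_symm hF hG hL v hx hy a b c]
    refine Finset.sum_congr rfl fun i _ => ?_
    rw [pd_comm hQ.sm b i hy]
    ring
  rw [h3]
  ring

/-- the algebraic identity in coordinates -/
theorem star_N {y : Fin n → ℝ} (hy : y ≠ 0) (p m k l : Fin n) :
    ∑ i, pd p (pd m (pd i (q F x))) y * pd k (pd l (N G v i x)) y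
      - ∑ i, pd k (pd m (pd i (q F x))) y * pd p (pd l (N G v i x)) y
      - ∑ i, pd p (pd l (pd i (q F x))) y * pd k (pd m (N G v i x)) y
      + ∑ i, pd k (pd l (pd i (q F x))) y * pd p (pd m (N G v i x)) y = 0 := by
  have hQ := q_mn hF hx
  have h := star hQ.sm (G := fun i z => G x z i) (fun i => spray_sm hF hG hx i)
    (fun y hy u v w => lands_vec hF hG hL hx y hy u v w) hy (Pi.single p 1) (Pi.single m 1) v
    (Pi.single k 1) (Pi.single l 1)
  have e : ∀ a b c d : Fin n, dd (Pi.single a 1) (dd (Pi.single b 1)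
      (dd (X (fun i z => G x z i) y v (Pi.single c 1) (Pi.single d 1)) (q F x))) y =
      ∑ i, pd a (pd b (pd i (q F x))) y * pd c (pd d (N G v i x)) y := by
    intro a b c d
    rw [dd_dd_dd_eq hQ.sm _ _ _ hy]
    refine Finset.sum_congr rfl fun i _ => ?_
    rw [mul_comm]
    have hGs := spray_sm hF hG hx i
    have h2 : X (fun i z => G x z i) y v (Pi.single c 1) (Pi.single d 1) i =
        pd c (pd d (N G v i x)) y := by
      unfold X
      rw [dd_comm (Sm.dd hGs _) v (Pi.single c 1) hy]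
      exact dd_congr (fun z hz => dd_comm hGs v (Pi.single d 1) hz) (Pi.single c 1) hy
    rw [h2]
    rfl
  rw [← e p m k l, ← e k m p l, ← e p l k m, ← e k l p m]
  exact h

end

end Pool.Agent.H792.LF
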